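import Pool.Agent.W993.MC.Stm

/-!
# Project MC: Abel's theorem
-/

set_option autoImplicit false

open Filter Topology

namespace Pool.Agent.W308.MC

open Pool.Agent.W993.MC

theorem re_pos {z : ℂ} (h1 : ‖z‖ = 1) (h2 : z ≠ 1) : 0 < (1 - z).re := by
  have h3 : z.re ≤ 1 := h1 ▸ Complex.re_le_norm z
  rcases lt_or_eq_of_le h3 with h4 | h4
  · simp only [Complex.sub_re, Complex.one_re]
    linarith
  · exfalso
    apply h2
    have h5 : z.re ^ 2 + z.im ^ 2 = 1 := by
      have := Complex.sq_norm z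
      rw [h1, Complex.normSq_apply] at this
      nlinarith
    rw [h4] at h5
    have h6 : z.im = 0 := by
      have : z.im ^ 2 = 0 := by linarith
      exact pow_eq_zero_iff (two_ne_zero) |>.1 this
    exact Complex.ext (by simpa using h4) (by simpa using h6)

theorem t_ABEL (h1 : S_GEN) (h2 : S_CV) : S_ABEL := by
  intro k z hz hz1
  obtain ⟨v, hv⟩ := h2 1 z (List.replicate k (1, 1)) le_rfl hz.le
    (fun h => hz1 (by simpa using h)) (by
      intro p hp
      rw [List.eq_of_mem_replicate hp]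
      simp)
  set f : ℕ → ℂ := fun l => z ^ (l + 1) / ((l : ℂ) + 1) * S (List.replicate k (1, 1)) l with hf
  have hS : ∀ M, S ((1, z) :: List.replicate k (1, 1)) M = ∑ l ∈ Finset.range M, f l := by
    intro M
    simp only [S, pow_one, hf]
  have hv' : Tendsto (fun n => ∑ i ∈ Finset.range n, f i) atTop (𝓝 v) := by
    refine hv.congr fun M => ?_
    exact hS M
  have hA := Complex.tendsto_tsum_powerSeries_nhdsWithin_lt hv'
  have hA' : Tendsto (fun t : ℝ => ∑' n, f n * (t : ℂ) ^ n) (𝓝[<] 1) (𝓝 v) := hA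
  -- the generating function
  set G : ℂ → ℂ := fun x => (-Complex.log (1 - x)) ^ (k + 1) / ((k + 1).factorial : ℂ) with hG
  have hgen : ∀ t : ℝ, 0 < t → t < 1 → ∑' n, f n * (t : ℂ) ^ n = G (t * z) / t := by
    intro t ht0 ht1
    have h3 : ‖(t : ℂ) * z‖ < 1 := by
      rw [norm_mul, hz, mul_one, Complex.norm_real, Real.norm_of_nonneg ht0.le]
      exact ht1
    have h4 := h1 k ((t : ℂ) * z) h3
    have ht : (t : ℂ) ≠ 0 := by exact_mod_cast ht0.ne'
    have h5 : HasSum (fun l : ℕ => f l * (t : ℂ) ^ l) (G (t * z) / t) := by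
      have h6 := h4.div_const (t : ℂ)
      have h7 : (fun l : ℕ => f l * (t : ℂ) ^ l) = fun l : ℕ => ((t : ℂ) * z) ^ (l + 1) /
          ((l : ℂ) + 1) * S (List.replicate k (1, 1)) l / (t : ℂ) := by
        funext l
        simp only [hf]
        rw [mul_pow, pow_succ (t : ℂ)]
        field_simp
      rw [h7]
      exact h6
    exact h5.tsum_eq
  have hcont : ContinuousAt (fun t : ℝ => G (t * z) / t) 1 := by
    have hsl : (1 - ((1 : ℝ) : ℂ) * z) ∈ Complex.slitPlane := by
      rw [Complex.ofReal_one, one_mul]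
      exact Or.inl (re_pos hz hz1)
    have h7 : ContinuousAt (fun t : ℝ => Complex.log (1 - (t : ℂ) * z)) 1 := by
      refine ContinuousAt.clog ?_ hsl
      fun_prop
    have h8 : ContinuousAt (fun t : ℝ => G (t * z)) 1 := by
      simp only [hG]
      exact (h7.neg.pow _).div_const _
    refine h8.div (by fun_prop) ?_
    simp
  have hlim : Tendsto (fun t : ℝ => G (t * z) / t) (𝓝[<] 1) (𝓝 (G z)) := by
    have h9 := hcont.tendsto
    simp only [Complex.ofReal_one, one_mul, div_one] at h9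
    exact h9.mono_left nhdsWithin_le_nhds
  have hlim' : Tendsto (fun t : ℝ => ∑' n, f n * (t : ℂ) ^ n) (𝓝[<] 1) (𝓝 (G z)) := by
    refine hlim.congr' ?_
    have h10 : Set.Ioo (0 : ℝ) 1 ∈ 𝓝[<] (1 : ℝ) := Ioo_mem_nhdsLT (by norm_num)
    filter_upwards [h10] with t ht
    exact (hgen t ht.1 ht.2).symm
  have hvG : v = G z := tendsto_nhds_unique hA' hlim'
  rw [hvG] at hv
  exact hv

end Pool.Agent.W308.MC
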